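import Mathlib

/-!
Definitions for the theorem on stable sets of periodic points of area preserving diffeomorphisms of closed surfaces
(MP_8a27c0_an).  A surface is a metric space `S` with a smooth atlas with values in the plane `ℂ`; the tangent
spaces are real vector spaces of dimension two.
-/

namespace StableSets

open Metric Set Filter Topology Function
open scoped Manifold ContDiff

/-- three dimensional Euclidean space -/
abbrev E3 := EuclideanSpace ℝ (Fin 3)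

instance factE3 : Fact (Module.finrank ℝ E3 = 2 + 1) := ⟨by simp⟩

/-- the unit sphere in three dimensional space, with the manifold structure of Mathlib -/
abbrev Sph := sphere (0 : E3) 1

section defs

variable {S : Type*} [MetricSpace S] [ChartedSpace ℂ S]

/-- a (continuous) area form on the surface `S`: an alternating bilinear form on each tangent space, nonzero,
whose coefficient along every `C¹` map from the plane to `S` is continuous -/
structure IsAreaForm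
    (om : ∀ x : S, TangentSpace 𝓘(ℝ, ℂ) x →ₗ[ℝ] TangentSpace 𝓘(ℝ, ℂ) x →ₗ[ℝ] ℝ) : Prop where
  alt : ∀ (x : S) (v : TangentSpace 𝓘(ℝ, ℂ) x), om x v v = 0
  ne : ∀ x : S, ∃ v w, om x v w ≠ 0
  cont : ∀ c : ℂ → S, ContMDiff 𝓘(ℝ, ℂ) 𝓘(ℝ, ℂ) 1 c →
    Continuous (fun z => om (c z) (mfderiv 𝓘(ℝ, ℂ) 𝓘(ℝ, ℂ) c z (1:ℂ))
      (mfderiv 𝓘(ℝ, ℂ) 𝓘(ℝ, ℂ) c z Complex.I))

/-- `f` preserves the area form -/
def PreservesArea (om : ∀ x : S, TangentSpace 𝓘(ℝ, ℂ) x →ₗ[ℝ] TangentSpace 𝓘(ℝ, ℂ) x →ₗ[ℝ] ℝ)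
    (f : S → S) : Prop :=
  ∀ (x : S) (v w : TangentSpace 𝓘(ℝ, ℂ) x),
    om (f x) (mfderiv 𝓘(ℝ, ℂ) 𝓘(ℝ, ℂ) f x v) (mfderiv 𝓘(ℝ, ℂ) 𝓘(ℝ, ℂ) f x w) = om x v w

omit [ChartedSpace ℂ S] in
/-- the stable set `Wˢ(P)` -/
def stableSet (f : S → S) (P : S) : Set S :=
  {x | Tendsto (fun n : ℕ => dist (f^[n] x) (f^[n] P)) atTop (𝓝 0)}

/-- the derivative at `P` of `f` iterated `q` times (used when `f^[q] P = P`) -/
noncomputable def iterDeriv (f : S → S) (q : ℕ) (P : S) : ℂ →L[ℝ] ℂ :=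
  mfderiv 𝓘(ℝ, ℂ) 𝓘(ℝ, ℂ) (f^[q]) P

/-- `μ` is a (complex) eigenvalue of the derivative at the periodic point `P` of the return map -/
def IsMultiplier (f : S → S) (P : S) (μ : ℂ) : Prop :=
  μ ∈ ((iterDeriv f (minimalPeriod f P) P : ℂ →ₗ[ℝ] ℂ).charpoly.map (algebraMap ℝ ℂ)).roots

/-- condition 1: no multiplier of a periodic point is a root of unity -/
def Cond1 (f : S → S) : Prop :=
  ∀ P ∈ periodicPts f, ∀ μ : ℂ, IsMultiplier f P μ → ∀ n : ℕ, 0 < n → μ ^ n ≠ 1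

/-- hyperbolic periodic points: no multiplier of modulus one -/
def Hyperbolic (f : S → S) (P : S) : Prop :=
  P ∈ periodicPts f ∧ ∀ μ : ℂ, IsMultiplier f P μ → ‖μ‖ ≠ 1

/-- `v` is the velocity at `x` of a regular `C¹` curve through `x` contained in `W` -/
def TangentTo (W : Set S) (x : S) (v : ℂ) : Prop :=
  v ≠ 0 ∧ ∃ α : ℝ → S, ContMDiffOn 𝓘(ℝ, ℝ) 𝓘(ℝ, ℂ) 1 α (Ioo (-1) 1) ∧
    (∀ t ∈ Ioo (-1:ℝ) 1, α t ∈ W) ∧ α 0 = x ∧
      (mfderiv 𝓘(ℝ, ℝ) 𝓘(ℝ, ℂ) α 0 : ℝ →L[ℝ] ℂ) 1 = v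

/-- condition 2: the stable and the unstable manifolds of hyperbolic periodic points are transverse
(velocities of regular curves in the two manifolds at a common point are linearly independent);
`fi` is the inverse of `f` -/
def Cond2 (f fi : S → S) : Prop :=
  ∀ P Q : S, Hyperbolic f P → Hyperbolic f Q → ∀ x ∈ stableSet f P ∩ stableSet fi Q,
    ∀ v w : ℂ, TangentTo (stableSet f P) x v → TangentTo (stableSet fi Q) x w →
      LinearIndependent ℝ ![v, w]

omit [ChartedSpace ℂ S] in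
/-- `A` is an annular rotation domain of the map `g`: an open `g`-invariant set homeomorphic to an open
annulus without periodic point of `g` -/
def RotationAnnulus (g : S → S) (A : Set S) : Prop :=
  IsOpen A ∧ g '' A = A ∧ Nonempty (A ≃ₜ {z : ℂ | 1 < ‖z‖ ∧ ‖z‖ < 2}) ∧ ∀ P ∈ A, P ∉ periodicPts g

omit [ChartedSpace ℂ S] in
/-- condition 4: no iterate of `f` has an annular rotation domain -/
def Cond4 (f : S → S) : Prop :=
  ∀ q : ℕ, 0 < q → ∀ A : Set S, ¬ RotationAnnulus (f^[q]) A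

end defs

/-- the automorphism `z ↦ c (z - b) / (1 - conj b z)` of the unit disc (`‖c‖ = 1`, `‖b‖ < 1`) -/
noncomputable def moeb (c b z : ℂ) : ℂ := c * (z - b) / (1 - (starRingEnd ℂ) b * z)

/-- `S` is diffeomorphic to the sphere -/
def SphereUnif (S : Type*) [TopologicalSpace S] [ChartedSpace ℂ S] : Prop :=
  Nonempty (Diffeomorph (𝓡 2) 𝓘(ℝ, ℂ) Sph S ∞)

/-- `S` is a smooth quotient of the plane by a group of translations -/
def FlatUnif (S : Type*) [TopologicalSpace S] [ChartedSpace ℂ S] : Prop :=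
  ∃ p : ℂ → S, ContMDiff 𝓘(ℝ, ℂ) 𝓘(ℝ, ℂ) ∞ p ∧ Surjective p ∧
    (∀ z, Bijective (mfderiv 𝓘(ℝ, ℂ) 𝓘(ℝ, ℂ) p z)) ∧
    ∀ z w, p z = p w → ∀ x, p (x + (w - z)) = p x

/-- `S` is a smooth quotient of the unit disc by a group of conformal automorphisms of the disc -/
def DiscUnif (S : Type*) [TopologicalSpace S] [ChartedSpace ℂ S] : Prop :=
  ∃ p : ℂ → S, ContMDiffOn 𝓘(ℝ, ℂ) 𝓘(ℝ, ℂ) ∞ p (ball 0 1) ∧ p '' ball 0 1 = univ ∧
    (∀ z ∈ ball (0:ℂ) 1, Bijective (mfderiv 𝓘(ℝ, ℂ) 𝓘(ℝ, ℂ) p z)) ∧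
    ∀ z ∈ ball (0:ℂ) 1, ∀ w ∈ ball (0:ℂ) 1, p z = p w →
      ∃ c b : ℂ, ‖c‖ = 1 ∧ ‖b‖ < 1 ∧ moeb c b z = w ∧
        ∀ x ∈ ball (0:ℂ) 1, p (moeb c b x) = p x

/-- `S` is uniformised: diffeomorphic to the sphere, or a smooth quotient of the plane by translations, or a
smooth quotient of the unit disc by conformal automorphisms.  By the uniformisation theorem every closed
oriented surface is of one of these types. -/
def Uniformised (S : Type*) [TopologicalSpace S] [ChartedSpace ℂ S] : Prop :=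
  SphereUnif S ∨ FlatUnif S ∨ DiscUnif S

end StableSets
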