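import Pool.Agent.H12.FIN.Defs
import Pool.Agent.H36.DS.Surf

/-!
Transport of the statement from surfaces with an atlas with values in `ℂ` to surfaces with an atlas with values in
the Euclidean plane.
-/

namespace StableSets

open Metric Set Filter Topology Function
open scoped Manifold ContDiff

/-- the linear identification of `ℂ` with the Euclidean plane -/
noncomputable def eL : ℂ ≃L[ℝ] DS.Surf.E2 :=
  Complex.orthonormalBasisOneI.repr.toContinuousLinearEquiv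

/-- as a chart -/
noncomputable def eH : OpenPartialHomeomorph ℂ DS.Surf.E2 :=
  eL.toHomeomorph.toOpenPartialHomeomorph

theorem eH_source : eH.source = univ := rfl
theorem eH_target : eH.target = univ := rfl
theorem eH_coe : (eH : ℂ → DS.Surf.E2) = eL := rfl
theorem eH_symm_coe : (eH.symm : DS.Surf.E2 → ℂ) = eL.symm := rfl

section
variable {S : Type} [MetricSpace S] [ChartedSpace ℂ S]

/-- the atlas with values in the Euclidean plane -/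
@[reducible] noncomputable def cs2 (S : Type) [MetricSpace S] [ChartedSpace ℂ S] :
    ChartedSpace DS.Surf.E2 S where
  atlas := (fun c : OpenPartialHomeomorph S ℂ => c ≫ₕ eH) '' atlas ℂ S
  chartAt x := chartAt ℂ x ≫ₕ eH
  mem_chart_source x := by
    rw [OpenPartialHomeomorph.trans_source, eH_source, preimage_univ, inter_univ]
    exact mem_chart_source ℂ x
  chart_mem_atlas x := mem_image_of_mem _ (chart_mem_atlas ℂ x)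

theorem man2 [IsManifold 𝓘(ℝ, ℂ) ∞ S] : @IsManifold ℝ _ DS.Surf.E2 _ _ DS.Surf.E2 _ (𝓡 2) ∞ S _
    (cs2 S) := by
  letI := cs2 S
  refine isManifold_of_contDiffOn (𝓡 2) ∞ S ?_
  rintro _ _ ⟨c, hc, rfl⟩ ⟨c', hc', rfl⟩
  have h1 := (contDiffGroupoid ∞ 𝓘(ℝ, ℂ)).compatible hc hc'
  rw [contDiffGroupoid, mem_groupoid_of_pregroupoid] at h1
  have h2 := h1.1
  simp only [contDiffPregroupoid, modelWithCornersSelf_coe, modelWithCornersSelf_coe_symm,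
    CompTriple.comp_eq, preimage_id_eq, id_eq, range_id, inter_univ] at h2 ⊢
  have h3 : ContDiffOn ℝ ∞ (fun y => eL ((c.symm ≫ₕ c') (eL.symm y)))
      ((c ≫ₕ eH).symm ≫ₕ c' ≫ₕ eH).source := by
    refine eL.contDiff.comp_contDiffOn (h2.comp eL.symm.contDiff.contDiffOn ?_)
    intro y hy
    rw [OpenPartialHomeomorph.trans_source] at hy
    obtain ⟨hy1, hy2⟩ := hy
    rw [OpenPartialHomeomorph.trans_source]
    rw [OpenPartialHomeomorph.symm_source, OpenPartialHomeomorph.trans_target] at hy1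
    rw [mem_preimage, OpenPartialHomeomorph.trans_source] at hy2
    exact ⟨hy1.2, hy2.1⟩
  exact h3

/-- the identity map from the first to the second manifold structure -/
theorem id12 : @ContMDiff ℝ _ ℂ _ _ ℂ _ 𝓘(ℝ, ℂ) S _ _ DS.Surf.E2 _ _ DS.Surf.E2 _ (𝓡 2) S _
    (cs2 S) ω (id : S → S) := by
  letI := cs2 S
  intro x
  rw [contMDiffAt_iff]
  refine ⟨continuousAt_id, ?_⟩
  have h1 : ContDiffWithinAt ℝ ω eL (range 𝓘(ℝ, ℂ)) (extChartAt 𝓘(ℝ, ℂ) x x) :=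
    eL.contDiff.contDiffAt.contDiffWithinAt
  refine h1.congr_of_eventuallyEq ?_ ?_
  · have h2 : (extChartAt 𝓘(ℝ, ℂ) x).target ∈ 𝓝[range 𝓘(ℝ, ℂ)] (extChartAt 𝓘(ℝ, ℂ) x x) :=
      extChartAt_target_mem_nhdsWithin x
    filter_upwards [h2] with y hy
    have h3 := (extChartAt 𝓘(ℝ, ℂ) x).right_inv hy
    show eL (chartAt ℂ x ((extChartAt 𝓘(ℝ, ℂ) x).symm y)) = eL y
    exact congrArg eL h3
  · show eL (chartAt ℂ x ((extChartAt 𝓘(ℝ, ℂ) x).symm (extChartAt 𝓘(ℝ, ℂ) x x))) =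
      eL (extChartAt 𝓘(ℝ, ℂ) x x)
    rw [extChartAt_to_inv]
    rfl

/-- the identity map from the second to the first manifold structure -/
theorem id21 : @ContMDiff ℝ _ DS.Surf.E2 _ _ DS.Surf.E2 _ (𝓡 2) S _ (cs2 S) ℂ _ _ ℂ _ 𝓘(ℝ, ℂ) S _ _
    ω (id : S → S) := by
  letI := cs2 S
  intro x
  rw [contMDiffAt_iff]
  refine ⟨continuousAt_id, ?_⟩
  have h1 : ContDiffWithinAt ℝ ω eL.symm (range (𝓡 2)) (extChartAt (𝓡 2) x x) :=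
    eL.symm.contDiff.contDiffAt.contDiffWithinAt
  refine h1.congr_of_eventuallyEq ?_ ?_
  · have h2 : (extChartAt (𝓡 2) x).target ∈ 𝓝[range (𝓡 2)] (extChartAt (𝓡 2) x x) :=
      extChartAt_target_mem_nhdsWithin x
    filter_upwards [h2] with y hy
    have h3 := (extChartAt (𝓡 2) x).right_inv hy
    have h4 : eL (chartAt ℂ x ((extChartAt (𝓡 2) x).symm y)) = y := h3
    show chartAt ℂ x ((extChartAt (𝓡 2) x).symm y) = eL.symm y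
    rw [← h4, ContinuousLinearEquiv.symm_apply_apply, h4]
  · show chartAt ℂ x ((extChartAt (𝓡 2) x).symm (extChartAt (𝓡 2) x x)) =
      eL.symm (extChartAt (𝓡 2) x x)
    rw [extChartAt_to_inv]
    show chartAt ℂ x x = eL.symm (eL (chartAt ℂ x x))
    rw [ContinuousLinearEquiv.symm_apply_apply]

/-- the derivative of the identity map from the first to the second structure -/
noncomputable def T (x : S) : ℂ →L[ℝ] DS.Surf.E2 :=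
  @mfderiv ℝ _ ℂ _ _ ℂ _ 𝓘(ℝ, ℂ) S _ _ DS.Surf.E2 _ _ DS.Surf.E2 _ (𝓡 2) S _ (cs2 S) id x

/-- the derivative of the identity map from the second to the first structure -/
noncomputable def R (x : S) : DS.Surf.E2 →L[ℝ] ℂ :=
  @mfderiv ℝ _ DS.Surf.E2 _ _ DS.Surf.E2 _ (𝓡 2) S _ (cs2 S) ℂ _ _ ℂ _ 𝓘(ℝ, ℂ) S _ _ id x

theorem md12 (x : S) : @MDifferentiableAt ℝ _ ℂ _ _ ℂ _ 𝓘(ℝ, ℂ) S _ _ DS.Surf.E2 _ _ DS.Surf.E2 _
    (𝓡 2) S _ (cs2 S) (id : S → S) x := by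
  letI := cs2 S
  exact (id12 x).mdifferentiableAt (by simp)

theorem md21 (x : S) : @MDifferentiableAt ℝ _ DS.Surf.E2 _ _ DS.Surf.E2 _ (𝓡 2) S _ (cs2 S) ℂ _ _ ℂ _
    𝓘(ℝ, ℂ) S _ _ (id : S → S) x := by
  letI := cs2 S
  exact (id21 x).mdifferentiableAt (by simp)

theorem RT (x : S) (v : ℂ) : R x (T x v) = v := by
  letI := cs2 S
  have h1 := mfderiv_comp (I := 𝓘(ℝ, ℂ)) (I' := 𝓡 2) (I'' := 𝓘(ℝ, ℂ)) x (md21 (id x)) (md12 x)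
  have h2 : mfderiv 𝓘(ℝ, ℂ) 𝓘(ℝ, ℂ) ((id : S → S) ∘ id) x = ContinuousLinearMap.id ℝ ℂ :=
    mfderiv_id
  rw [h1] at h2
  exact congrArg (fun L : ℂ →L[ℝ] ℂ => L v) h2

theorem TR (x : S) (v : DS.Surf.E2) : T x (R x v) = v := by
  letI := cs2 S
  have h1 := mfderiv_comp (I := 𝓡 2) (I' := 𝓘(ℝ, ℂ)) (I'' := 𝓡 2) x (md12 (id x)) (md21 x)
  have h2 : mfderiv (𝓡 2) (𝓡 2) ((id : S → S) ∘ id) x = ContinuousLinearMap.id ℝ DS.Surf.E2 :=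
    mfderiv_id
  rw [h1] at h2
  exact congrArg (fun L : DS.Surf.E2 →L[ℝ] DS.Surf.E2 => L v) h2

/-- the derivative at `x` as a linear equivalence -/
noncomputable def TE (x : S) : ℂ ≃ₗ[ℝ] DS.Surf.E2 where
  toFun := T x
  map_add' := map_add _
  map_smul' := map_smul _
  invFun := R x
  left_inv := RT x
  right_inv := TR x

theorem d22 {g : S → S} {x : S} (hg : MDifferentiableAt 𝓘(ℝ, ℂ) 𝓘(ℝ, ℂ) g x)
    (v : DS.Surf.E2) :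
    @mfderiv ℝ _ DS.Surf.E2 _ _ DS.Surf.E2 _ (𝓡 2) S _ (cs2 S) DS.Surf.E2 _ _ DS.Surf.E2 _ (𝓡 2) S _
      (cs2 S) g x v = T (g x) (mfderiv 𝓘(ℝ, ℂ) 𝓘(ℝ, ℂ) g x (R x v)) := by
  letI := cs2 S
  have h0 : MDifferentiableAt (𝓡 2) 𝓘(ℝ, ℂ) (g ∘ id) x := hg.comp x (md21 x)
  have h1 := mfderiv_comp (I := 𝓡 2) (I' := 𝓘(ℝ, ℂ)) (I'' := 𝓡 2) x (md12 ((g ∘ id) x)) h0
  have h2 := mfderiv_comp (I := 𝓡 2) (I' := 𝓘(ℝ, ℂ)) (I'' := 𝓘(ℝ, ℂ)) x hg (md21 x)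
  have h3 : mfderiv (𝓡 2) (𝓡 2) ((id : S → S) ∘ (g ∘ id)) x v =
      T (g x) (mfderiv (𝓡 2) 𝓘(ℝ, ℂ) (g ∘ id) x v) := by
    rw [h1]
    rfl
  rw [h2] at h3
  exact h3

theorem dT {F : Type} [NormedAddCommGroup F] [NormedSpace ℝ F] {h : F → S} {z : F}
    (hh : MDifferentiableAt 𝓘(ℝ, F) 𝓘(ℝ, ℂ) h z) (v : F) :
    @mfderiv ℝ _ F _ _ F _ 𝓘(ℝ, F) F _ _ DS.Surf.E2 _ _ DS.Surf.E2 _ (𝓡 2) S _ (cs2 S) h z v =
      T (h z) (mfderiv 𝓘(ℝ, F) 𝓘(ℝ, ℂ) h z v) := by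
  letI := cs2 S
  have h1 := mfderiv_comp (I := 𝓘(ℝ, F)) (I' := 𝓘(ℝ, ℂ)) (I'' := 𝓡 2) z (md12 (h z)) hh
  have h3 : mfderiv 𝓘(ℝ, F) (𝓡 2) ((id : S → S) ∘ h) z v =
      T (h z) (mfderiv 𝓘(ℝ, F) 𝓘(ℝ, ℂ) h z v) := by
    rw [h1]
    rfl
  exact h3

theorem dR {F : Type} [NormedAddCommGroup F] [NormedSpace ℝ F] {h : F → S} {z : F}
    (hh : @MDifferentiableAt ℝ _ F _ _ F _ 𝓘(ℝ, F) F _ _ DS.Surf.E2 _ _ DS.Surf.E2 _ (𝓡 2) S _ (cs2 S)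
      h z) (v : F) :
    mfderiv 𝓘(ℝ, F) 𝓘(ℝ, ℂ) h z v =
      R (h z) (@mfderiv ℝ _ F _ _ F _ 𝓘(ℝ, F) F _ _ DS.Surf.E2 _ _ DS.Surf.E2 _ (𝓡 2) S _ (cs2 S)
        h z v) := by
  letI := cs2 S
  have h1 := mfderiv_comp (I := 𝓘(ℝ, F)) (I' := 𝓡 2) (I'' := 𝓘(ℝ, ℂ)) z (md21 (h z)) hh
  have h3 : mfderiv 𝓘(ℝ, F) 𝓘(ℝ, ℂ) ((id : S → S) ∘ h) z v =
      R (h z) (mfderiv 𝓘(ℝ, F) (𝓡 2) h z v) := by
    rw [h1]
    rfl
  exact h3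

theorem c12 {F : Type} [NormedAddCommGroup F] [NormedSpace ℝ F] {h : F → S} {n : WithTop ℕ∞}
    {W : Set F} (hh : ContMDiffOn 𝓘(ℝ, F) 𝓘(ℝ, ℂ) n h W) :
    @ContMDiffOn ℝ _ F _ _ F _ 𝓘(ℝ, F) F _ _ DS.Surf.E2 _ _ DS.Surf.E2 _ (𝓡 2) S _ (cs2 S) n h W := by
  letI := cs2 S
  exact ((id12 (S := S)).of_le le_top).comp_contMDiffOn hh

theorem c21 {F : Type} [NormedAddCommGroup F] [NormedSpace ℝ F] {h : F → S} {n : WithTop ℕ∞}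
    {W : Set F} (hh : @ContMDiffOn ℝ _ F _ _ F _ 𝓘(ℝ, F) F _ _ DS.Surf.E2 _ _ DS.Surf.E2 _ (𝓡 2) S _
      (cs2 S) n h W) : ContMDiffOn 𝓘(ℝ, F) 𝓘(ℝ, ℂ) n h W := by
  letI := cs2 S
  exact ((id21 (S := S)).of_le le_top).comp_contMDiffOn hh

theorem bij_T {L : ℂ →L[ℝ] ℂ} (x : S) (hL : Bijective L) : Bijective fun v => T x (L v) :=
  (TE x).bijective.comp hL

theorem unif2 (h : Uniformised S) : @DS.Surf.Uniformised S _ (cs2 S) := by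
  letI := cs2 S
  rcases h with ⟨⟨Φ⟩⟩ | ⟨p, hp, hs, hb, hq⟩ | ⟨p, hp, hs, hb, hq⟩
  · refine Or.inl ⟨{ toEquiv := Φ.toEquiv, contMDiff_toFun := ?_, contMDiff_invFun := ?_ }⟩
    · exact ((id12 (S := S)).of_le le_top).comp Φ.contMDiff_toFun
    · exact Φ.contMDiff_invFun.comp ((id21 (S := S)).of_le le_top)
  · refine Or.inr (Or.inl ⟨p, ((id12 (S := S)).of_le le_top).comp hp, hs, fun z => ?_, hq⟩)
    have h1 := bij_T (p z) (hb z)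
    have h2 : ⇑(mfderiv 𝓘(ℝ, ℂ) (𝓡 2) p z) = fun v => T (p z) (mfderiv 𝓘(ℝ, ℂ) 𝓘(ℝ, ℂ) p z v) := by
      funext v
      exact dT (hp.mdifferentiableAt (by simp)) v
    rw [h2]
    exact h1
  · refine Or.inr (Or.inr ⟨p, c12 hp, hs, fun z hz => ?_, hq⟩)
    have h1 := bij_T (p z) (hb z hz)
    have hd : MDifferentiableAt 𝓘(ℝ, ℂ) 𝓘(ℝ, ℂ) p z :=
      ((hp z hz).contMDiffAt (isOpen_ball.mem_nhds hz)).mdifferentiableAt (by simp)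
    have h2 : ⇑(mfderiv 𝓘(ℝ, ℂ) (𝓡 2) p z) = fun v => T (p z) (mfderiv 𝓘(ℝ, ℂ) 𝓘(ℝ, ℂ) p z v) := by
      funext v
      exact dT hd v
    rw [h2]
    exact h1

/-- the area form in the second structure -/
noncomputable def om2
    (om : ∀ x : S, TangentSpace 𝓘(ℝ, ℂ) x →ₗ[ℝ] TangentSpace 𝓘(ℝ, ℂ) x →ₗ[ℝ] ℝ) (x : S) :
    DS.Surf.E2 →ₗ[ℝ] DS.Surf.E2 →ₗ[ℝ] ℝ :=
  LinearMap.compl₁₂ (om x : ℂ →ₗ[ℝ] ℂ →ₗ[ℝ] ℝ) (R x).toLinearMap (R x).toLinearMap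

theorem om2_apply (om : ∀ x : S, TangentSpace 𝓘(ℝ, ℂ) x →ₗ[ℝ] TangentSpace 𝓘(ℝ, ℂ) x →ₗ[ℝ] ℝ)
    (x : S) (v w : DS.Surf.E2) : om2 om x v w = om x (R x v) (R x w) := rfl

theorem area2 {om : ∀ x : S, TangentSpace 𝓘(ℝ, ℂ) x →ₗ[ℝ] TangentSpace 𝓘(ℝ, ℂ) x →ₗ[ℝ] ℝ}
    (h : IsAreaForm om) : @DS.Surf.IsAreaForm S _ (cs2 S) (om2 om) := by
  letI := cs2 S
  constructor
  · intro x v
    exact h.alt x _
  · intro x
    obtain ⟨v, w, hvw⟩ := h.ne x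
    refine ⟨T x v, T x w, ?_⟩
    show om x (R x (T x v)) (R x (T x w)) ≠ 0
    rw [RT, RT]
    exact hvw
  · intro c hc
    have hc' : ContMDiff 𝓘(ℝ, ℂ) 𝓘(ℝ, ℂ) 1 c := ((id21 (S := S)).of_le le_top).comp hc
    refine (h.cont c hc').congr fun z => ?_
    have h1 := dR (hc.mdifferentiableAt one_ne_zero : MDifferentiableAt 𝓘(ℝ, ℂ) (𝓡 2) c z) (1 : ℂ)
    have h2 := dR (hc.mdifferentiableAt one_ne_zero : MDifferentiableAt 𝓘(ℝ, ℂ) (𝓡 2) c z) Complex.I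
    show om (c z) (mfderiv 𝓘(ℝ, ℂ) 𝓘(ℝ, ℂ) c z (1:ℂ)) (mfderiv 𝓘(ℝ, ℂ) 𝓘(ℝ, ℂ) c z Complex.I) =
      om (c z) (R (c z) (mfderiv 𝓘(ℝ, ℂ) (𝓡 2) c z (1:ℂ)))
        (R (c z) (mfderiv 𝓘(ℝ, ℂ) (𝓡 2) c z Complex.I))
    rw [← h1, ← h2]

theorem pres2 {om : ∀ x : S, TangentSpace 𝓘(ℝ, ℂ) x →ₗ[ℝ] TangentSpace 𝓘(ℝ, ℂ) x →ₗ[ℝ] ℝ}
    {f : S → S} (hf : MDifferentiable 𝓘(ℝ, ℂ) 𝓘(ℝ, ℂ) f) (h : PreservesArea om f) :
    @DS.Surf.PreservesArea S _ (cs2 S) (om2 om) f := by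
  letI := cs2 S
  intro x v w
  show om (f x) (R (f x) (mfderiv (𝓡 2) (𝓡 2) f x v)) (R (f x) (mfderiv (𝓡 2) (𝓡 2) f x w)) =
    om x (R x v) (R x w)
  have h1 : mfderiv (𝓡 2) (𝓡 2) f x v = T (f x) (mfderiv 𝓘(ℝ, ℂ) 𝓘(ℝ, ℂ) f x (R x v)) := d22 (hf x) v
  have h2 : mfderiv (𝓡 2) (𝓡 2) f x w = T (f x) (mfderiv 𝓘(ℝ, ℂ) 𝓘(ℝ, ℂ) f x (R x w)) := d22 (hf x) w
  rw [h1, h2, RT, RT]
  exact h x _ _

theorem mult2 {f : S → S} (hf : ∀ n : ℕ, MDifferentiable 𝓘(ℝ, ℂ) 𝓘(ℝ, ℂ) (f^[n])) {P : S} {μ : ℂ} :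
    @DS.Surf.IsMultiplier S _ (cs2 S) f P μ ↔ IsMultiplier f P μ := by
  letI := cs2 S
  have hP : f^[minimalPeriod f P] P = P := iterate_minimalPeriod
  have h1 : ((DS.Surf.iterDeriv f (minimalPeriod f P) P : DS.Surf.E2 →L[ℝ] DS.Surf.E2) :
      DS.Surf.E2 →ₗ[ℝ] DS.Surf.E2) =
        (TE P).conj ((iterDeriv f (minimalPeriod f P) P : ℂ →L[ℝ] ℂ) : ℂ →ₗ[ℝ] ℂ) := by
    ext1 v
    have h2 := d22 (hf (minimalPeriod f P) P) v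
    rw [hP] at h2
    exact h2
  unfold DS.Surf.IsMultiplier IsMultiplier
  rw [h1, LinearEquiv.charpoly_conj]

theorem cond1_2 {f : S → S} (hf : ∀ n : ℕ, MDifferentiable 𝓘(ℝ, ℂ) 𝓘(ℝ, ℂ) (f^[n]))
    (h : Cond1 f) : @DS.Surf.Cond1 S _ (cs2 S) f := by
  letI := cs2 S
  intro P hP μ hμ
  exact h P hP μ ((mult2 hf).1 hμ)

theorem hyp2 {f : S → S} (hf : ∀ n : ℕ, MDifferentiable 𝓘(ℝ, ℂ) 𝓘(ℝ, ℂ) (f^[n])) {P : S}
    (h : @DS.Surf.Hyperbolic S _ (cs2 S) f P) : Hyperbolic f P := by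
  letI := cs2 S
  exact ⟨h.1, fun μ hμ => h.2 μ ((mult2 hf).2 hμ)⟩

theorem tan2 {W : Set S} {x : S} {v : DS.Surf.E2} (h : @DS.Surf.TangentTo S _ (cs2 S) W x v) :
    TangentTo W x (R x v) := by
  letI := cs2 S
  obtain ⟨hv, α, hα, hW, h0, hd⟩ := h
  refine ⟨fun h => hv ?_, α, c21 hα, hW, h0, ?_⟩
  · rw [← TR x v, h, map_zero]
  · have hda : MDifferentiableAt 𝓘(ℝ, ℝ) (𝓡 2) α 0 :=
      ((hα 0 ⟨by norm_num, by norm_num⟩).contMDiffAt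
        (isOpen_Ioo.mem_nhds ⟨by norm_num, by norm_num⟩)).mdifferentiableAt one_ne_zero
    have h1 := dR hda (1 : ℝ)
    have h2 : (mfderiv 𝓘(ℝ, ℝ) (𝓡 2) α 0 : ℝ →L[ℝ] DS.Surf.E2) 1 = v := hd
    subst h0
    exact h1.trans (congrArg (R (α 0)) h2)

theorem cond2_2 {f fi : S → S} (hf : ∀ n : ℕ, MDifferentiable 𝓘(ℝ, ℂ) 𝓘(ℝ, ℂ) (f^[n]))
    (h : Cond2 f fi) : @DS.Surf.Cond2 S _ (cs2 S) f fi := by
  letI := cs2 S
  intro P Q hP hQ x hx v w hv hw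
  have h1 := h P Q (hyp2 hf hP) (hyp2 hf hQ) x hx (R x v) (R x w) (tan2 hv) (tan2 hw)
  refine LinearIndependent.of_comp ((R x : DS.Surf.E2 →L[ℝ] ℂ) : DS.Surf.E2 →ₗ[ℝ] ℂ) ?_
  have h2 : ((R x : DS.Surf.E2 →L[ℝ] ℂ) : DS.Surf.E2 →ₗ[ℝ] ℂ) ∘ ![v, w] = ![R x v, R x w] := by
    funext i
    fin_cases i <;> rfl
  rw [h2]
  exact h1

/-- the theorem for surfaces with an atlas in `ℂ` -/
theorem transport (hmain : DS.Surf.Main) (S : Type) [MetricSpace S] [ChartedSpace ℂ S]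
    [IsManifold 𝓘(ℝ, ℂ) ∞ S] [CompactSpace S] (hS : Uniformised S) (r : WithTop ℕ∞) (hr : 1 ≤ r)
    (f : Diffeomorph 𝓘(ℝ, ℂ) 𝓘(ℝ, ℂ) S S r)
    (om : ∀ x : S, TangentSpace 𝓘(ℝ, ℂ) x →ₗ[ℝ] TangentSpace 𝓘(ℝ, ℂ) x →ₗ[ℝ] ℝ)
    (hom : IsAreaForm om) (hf : PreservesArea om f) (hper : (periodicPts f).Nonempty)
    (h1 : Cond1 f) (h2 : Cond2 f f.symm) (h4 : Cond4 f) :
    Dense (⋃ P ∈ periodicPts f, stableSet f P) := by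
  letI := cs2 S
  haveI : IsManifold (𝓡 2) ∞ S := man2
  have hc : ContMDiff 𝓘(ℝ, ℂ) 𝓘(ℝ, ℂ) 1 f := f.contMDiff.of_le hr
  have hci : ContMDiff 𝓘(ℝ, ℂ) 𝓘(ℝ, ℂ) 1 f.symm := f.symm.contMDiff.of_le hr
  have hit : ∀ n : ℕ, ContMDiff 𝓘(ℝ, ℂ) 𝓘(ℝ, ℂ) 1 (f^[n]) := by
    intro n
    induction n with
    | zero => exact contMDiff_id
    | succ n ih =>
      rw [iterate_succ]
      exact ih.comp hc
  have hmd : ∀ n : ℕ, MDifferentiable 𝓘(ℝ, ℂ) 𝓘(ℝ, ℂ) (f^[n]) := fun n =>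
    (hit n).mdifferentiable one_ne_zero
  let f2 : Diffeomorph (𝓡 2) (𝓡 2) S S 1 :=
    { toEquiv := f.toEquiv
      contMDiff_toFun := ((id12 (S := S)).of_le le_top).comp
        (hc.comp ((id21 (S := S)).of_le le_top))
      contMDiff_invFun := ((id12 (S := S)).of_le le_top).comp
        (hci.comp ((id21 (S := S)).of_le le_top)) }
  exact hmain S (unif2 hS) 1 le_rfl f2 (om2 om) (area2 hom)
    (pres2 (hc.mdifferentiable one_ne_zero) hf) hper (cond1_2 hmd h1) (cond2_2 hmd h2) h4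

end

end StableSets
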